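import Mathlib

/-!
Completion lemma: a partially defined equivariant injection into a finite `G`-set can be
completed to an honest action on a slightly larger set.
-/

set_option linter.unusedSectionVars false

namespace Pool.Agent.Lib_MP_3a79a1_al

open Finset

section completion

variable {G : Type*} [Group G] [Fintype G] [DecidableEq G]
variable {X : Type*} [Fintype X] [DecidableEq X]
variable {Y : Type*} [Fintype Y] [DecidableEq Y] [MulAction G Y]

/-- number of `g` with `g • y` in a given set `I`. -/
def hits (G : Type*) [Group G] [Fintype G] [DecidableEq G] {Y : Type*} [Fintype Y] [DecidableEq Y]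
    [MulAction G Y] (I : Finset Y) (y : Y) : ℕ := (univ.filter (fun g : G => g • y ∈ I)).card

lemma hits_smul (I : Finset Y) (y : Y) (k : G) :
    hits G I (k • y) = hits G I y := by
  unfold hits
  refine Finset.card_bij (fun g _ => g * k) ?_ ?_ ?_
  · intro g hg
    simp only [mem_filter, mem_univ, true_and] at hg ⊢
    rwa [mul_smul]
  · intro a _ b _ h
    exact mul_right_cancel h
  · intro g hg
    refine ⟨g * k⁻¹, ?_, by simp⟩
    simp only [mem_filter, mem_univ, true_and] at hg ⊢
    rwa [← mul_smul, inv_mul_cancel_right]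

lemma hits_le (I : Finset Y) (y : Y) : hits G I y ≤ Fintype.card G := by
  unfold hits
  exact (Finset.card_le_univ _)

lemma hits_compl (I : Finset Y) (y : Y) :
    Fintype.card G - hits G I y = (univ.filter (fun g : G => ¬ g • y ∈ I)).card := by
  unfold hits
  have := Finset.card_filter_add_card_filter_not (s := (univ : Finset G)) (fun g : G => g • y ∈ I)
  rw [Finset.card_univ] at this
  omega

/-- weighted double counting: for a `G`-invariant set `W` and an invariant weight `w`,
`∑_{y ∈ W} w y * hits I y = |G| * ∑_{y ∈ W ∩ I} w y`. -/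
lemma double_count (I W : Finset Y) (w : Y → ℕ) (hW : ∀ (g : G) y, y ∈ W ↔ g • y ∈ W)
    (hw : ∀ (g : G) y, w (g • y) = w y) :
    ∑ y ∈ W, w y * hits G I y = Fintype.card G * ∑ y ∈ W ∩ I, w y := by
  have h1 : ∑ y ∈ W, w y * hits G I y
      = ∑ y ∈ W, ∑ g : G, if g • y ∈ I then w y else 0 := by
    refine Finset.sum_congr rfl (fun y _ => ?_)
    rw [← Finset.sum_filter, Finset.sum_const, hits, smul_eq_mul, mul_comm]
  rw [h1, Finset.sum_comm]
  have h2 : ∀ g : G, (∑ y ∈ W, if g • y ∈ I then w y else 0) = ∑ y ∈ W ∩ I, w y := by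
    intro g
    rw [← Finset.sum_filter]
    refine Finset.sum_bij (fun y _ => g • y) ?_ ?_ ?_ ?_
    · intro y hy
      simp only [mem_filter, mem_inter] at hy ⊢
      exact ⟨(hW g y).1 hy.1, hy.2⟩
    · intro a _ b _ h
      exact MulAction.injective g h
    · intro z hz
      refine ⟨g⁻¹ • z, ?_, by simp⟩
      simp only [mem_filter, mem_inter] at hz ⊢
      exact ⟨(hW g⁻¹ z).1 hz.1, by simpa using hz.2⟩
    · intro y _
      exact (hw g y).symm
  rw [Finset.sum_congr rfl (fun g _ => h2 g), Finset.sum_const, smul_eq_mul, Finset.card_univ]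

end completion

open Classical in
/-- the completion lemma. `Err` is the set of pairs `(g, x)` at which the partial injection `ι`
fails to be equivariant. -/
theorem completion {G : Type} [Group G] [Fintype G] [DecidableEq G]
    {X : Type} [Fintype X] [DecidableEq X]
    {Y : Type} [Fintype Y] [DecidableEq Y] [MulAction G Y]
    (f : G → Equiv.Perm X) (P : X → Prop) (ι : {x // P x} → Y)
    (hι : Function.Injective ι) (Err : Finset (G × X))
    (hErr : ∀ p : G × X, p ∉ Err → ∃ (h1 : P p.2) (h2 : P (f p.1 p.2)),
      p.1 • ι ⟨p.2, h1⟩ = ι ⟨f p.1 p.2, h2⟩) :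
    ∃ (Z : Type) (_ : Fintype Z) (β : G →* Equiv.Perm Z) (j : X → Z), Function.Injective j ∧
      Fintype.card X ≤ Fintype.card Z ∧
      Fintype.card G * (Fintype.card Z - Fintype.card X) ≤ 2 * Err.card ∧
      (univ.filter (fun p : G × X => β p.1 (j p.2) ≠ j (f p.1 p.2))).card ≤ 3 * Err.card := by
  classical
  -- the image of ι
  set I : Finset Y := univ.image ι with hI
  set W : Finset Y := univ.filter (fun y => Fintype.card G ≤ 2 * hits G I y) with hWdef
  have hWinv : ∀ (g : G) y, y ∈ W ↔ g • y ∈ W := by
    intro g y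
    simp only [hWdef, mem_filter, mem_univ, true_and, hits_smul]
  -- X'' as predicate
  let Q : X → Prop := fun x => ∃ h : P x, ι ⟨x, h⟩ ∈ W
  -- e x
  let e : X → ℕ := fun x => (univ.filter (fun g : G => (g, x) ∈ Err)).card
  have hesum : ∑ x : X, e x = Err.card := by
    have : Err.card = ∑ x : X, (Err.filter (fun p => p.2 = x)).card := by
      exact Finset.card_eq_sum_card_fiberwise (f := fun p : G × X => p.2) (t := univ)
        (fun _ _ => by simp)
    rw [this]
    refine Finset.sum_congr rfl (fun x _ => ?_)
    refine Finset.card_bij (fun g _ => (g, x)) ?_ ?_ ?_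
    · intro g hg
      simp only [mem_filter, mem_univ, true_and] at hg
      simp [hg]
    · intro a _ b _ h
      exact (Prod.mk.inj h).1
    · rintro ⟨g, y⟩ hg
      simp only [mem_filter] at hg
      obtain ⟨h1, h2⟩ := hg
      subst h2
      exact ⟨g, by simp [h1], rfl⟩
  -- non-membership count bound
  have hcount : ∀ x (h : P x), Fintype.card G - hits G I (ι ⟨x, h⟩) ≤ e x := by
    intro x h
    rw [hits_compl]
    refine Finset.card_le_card ?_
    intro g hg
    simp only [mem_filter, mem_univ, true_and] at hg ⊢
    by_contra hne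
    obtain ⟨h1, h2, h3⟩ := hErr (g, x) hne
    apply hg
    simp only at h3
    rw [h3, hI]
    exact mem_image_of_mem _ (mem_univ _)
  have hnotQ : ∀ x, ¬ Q x → Fintype.card G ≤ 2 * e x := by
    intro x hx
    by_cases h : P x
    · have h1 : ι ⟨x, h⟩ ∉ W := fun hh => hx ⟨h, hh⟩
      simp only [hWdef, mem_filter, mem_univ, true_and, not_le] at h1
      have h2 := hcount x h
      omega
    · have : e x = Fintype.card G := by
        have : (univ.filter (fun g : G => (g, x) ∈ Err)) = univ := by
          refine Finset.filter_true_of_mem (fun g _ => ?_)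
          by_contra hne
          exact h (hErr (g, x) hne).1
        simp only [e]
        rw [this, Finset.card_univ]
      omega
  -- bijection W ∩ I with Q
  let QF : Finset X := univ.filter Q
  have hsumQ : ∀ w : Y → ℕ, ∑ y ∈ W ∩ I, w y = ∑ x ∈ QF.attach,
      w (ι ⟨x.1, (mem_filter.1 x.2).2.1⟩) := by
    intro w
    symm
    refine Finset.sum_bij (fun x _ => ι ⟨x.1, (mem_filter.1 x.2).2.1⟩) ?_ ?_ ?_ ?_
    · intro x _
      have := (mem_filter.1 x.2).2.2
      simp only [mem_inter]
      exact ⟨this, mem_image_of_mem _ (mem_univ _)⟩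
    · intro a _ b _ h
      have := hι h
      simp only [Subtype.mk.injEq] at this
      exact Subtype.ext this
    · intro y hy
      simp only [mem_inter, hI, mem_image, mem_univ, true_and] at hy
      obtain ⟨hy1, ⟨x, hx⟩, hy2⟩ := hy
      refine ⟨⟨x, ?_⟩, by simp, ?_⟩
      · simp only [QF, mem_filter, mem_univ, true_and]
        exact ⟨hx, by rw [hy2]; exact hy1⟩
      · exact hy2
    · intro x _
      rfl
  have hcardQ : (W ∩ I).card = QF.card := by
    have := hsumQ (fun _ => 1)
    simpa using this
  -- main inequality 1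
  have hdc1 := double_count I W (fun _ => 1) hWinv (fun _ _ => rfl)
  have hdc2 := double_count (G := G) I W (fun y => Fintype.card G - hits G I y) hWinv
    (fun g y => by rw [hits_smul])
  have hG : 0 < Fintype.card G := Fintype.card_pos
  have hineq : ∑ y ∈ W, (Fintype.card G - hits G I y) ≤
      2 * ∑ y ∈ W ∩ I, (Fintype.card G - hits G I y) := by
    have h1 : Fintype.card G * ∑ y ∈ W, (Fintype.card G - hits G I y) ≤
        2 * (Fintype.card G * ∑ y ∈ W ∩ I, (Fintype.card G - hits G I y)) := by
      rw [← hdc2, Finset.mul_sum, Finset.mul_sum]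
      refine Finset.sum_le_sum (fun y hy => ?_)
      have hy2 : Fintype.card G ≤ 2 * hits G I y := by
        simpa [hWdef] using hy
      calc Fintype.card G * (Fintype.card G - hits G I y)
          ≤ (2 * hits G I y) * (Fintype.card G - hits G I y) := Nat.mul_le_mul_right _ hy2
        _ = 2 * ((Fintype.card G - hits G I y) * hits G I y) := by ring
    have h2 : Fintype.card G * ∑ y ∈ W, (Fintype.card G - hits G I y) ≤
        Fintype.card G * (2 * ∑ y ∈ W ∩ I, (Fintype.card G - hits G I y)) := by
      calc _ ≤ _ := h1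
        _ = _ := by ring
    exact Nat.le_of_mul_le_mul_left h2 hG
  have hWle : (W ∩ I).card ≤ W.card := Finset.card_le_card Finset.inter_subset_left
  have hineq2 : Fintype.card G * (W.card - QF.card) ≤ 2 * ∑ x ∈ QF, e x := by
    have h1 : ∑ y ∈ W, (Fintype.card G - hits G I y) = Fintype.card G * (W.card - QF.card) := by
      have h3 : ∑ y ∈ W, (Fintype.card G - hits G I y) + ∑ y ∈ W, hits G I y
          = Fintype.card G * W.card := by
        rw [← Finset.sum_add_distrib]
        rw [Finset.sum_congr rfl (fun y _ => Nat.sub_add_cancel (hits_le (G := G) I y))]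
        rw [Finset.sum_const, smul_eq_mul, mul_comm]
      have h4 : ∑ y ∈ W, hits G I y = Fintype.card G * QF.card := by
        simp only [one_mul, Finset.sum_const, smul_eq_mul, mul_one] at hdc1
        rw [hdc1, hcardQ]
      rw [Nat.mul_sub]
      omega
    have h2 : ∑ y ∈ W ∩ I, (Fintype.card G - hits G I y) ≤ ∑ x ∈ QF, e x := by
      rw [hsumQ, ← Finset.sum_attach QF]
      refine Finset.sum_le_sum (fun x _ => ?_)
      exact hcount _ _
    calc _ = _ := h1.symm
      _ ≤ _ := hineq
      _ ≤ _ := Nat.mul_le_mul_left _ h2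
  -- main inequality 2
  let NQ : Finset X := univ.filter (fun x => ¬ Q x)
  have hineq3 : Fintype.card G * NQ.card ≤ 2 * ∑ x ∈ NQ, e x := by
    rw [Finset.mul_sum, mul_comm, ← smul_eq_mul, ← Finset.sum_const]
    refine Finset.sum_le_sum (fun x hx => ?_)
    exact hnotQ x (by simpa [NQ] using hx)
  have hsplit : ∑ x ∈ QF, e x + ∑ x ∈ NQ, e x = Err.card := by
    rw [← hesum]
    exact Finset.sum_filter_add_sum_filter_not univ Q e
  have hsplit2 : QF.card + NQ.card = Fintype.card X := by
    have := Finset.card_filter_add_card_filter_not (s := (univ : Finset X)) Q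
    rwa [Finset.card_univ] at this
  -- the action
  let WS : SubMulAction G Y :=
    { carrier := {y | y ∈ W}
      smul_mem' := fun g y hy => (hWinv g y).1 hy }
  let Z : Type := WS ⊕ {x // ¬ Q x}
  let β : G →* Equiv.Perm Z :=
    (Equiv.Perm.sumCongrHom WS {x // ¬ Q x}).comp
      ((MulAction.toPermHom G WS).prod (1 : G →* Equiv.Perm {x // ¬ Q x}))
  let j : X → Z := fun x => if h : Q x then Sum.inl ⟨ι ⟨x, h.1⟩, h.2⟩ else Sum.inr ⟨x, h⟩
  have hβinl : ∀ g (y : WS), β g (Sum.inl y) = Sum.inl (g • y) := by
    intro g y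
    rfl
  have : Fintype WS := Fintype.ofFinite _
  have hcardWS : Fintype.card WS = W.card := by
    rw [Fintype.card_eq_nat_card]
    have : Nat.card {y // y ∈ W} = W.card := by simp
    rw [← this]
    rfl
  have hcardNQ : Fintype.card {x // ¬ Q x} = NQ.card := by
    rw [Fintype.card_subtype]
  have hcardZ : Fintype.card Z = W.card + NQ.card := by
    show Fintype.card (WS ⊕ {x // ¬ Q x}) = _
    rw [Fintype.card_sum, hcardWS, hcardNQ]
  refine ⟨Z, inferInstance, β, j, ?_, ?_, ?_, ?_⟩
  · intro x y hxy
    simp only [j] at hxy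
    by_cases h1 : Q x
    · by_cases h2 : Q y
      · rw [dif_pos h1, dif_pos h2] at hxy
        have := Sum.inl.inj hxy
        have := hι (Subtype.mk.inj this)
        exact Subtype.mk.inj this
      · rw [dif_pos h1, dif_neg h2] at hxy
        exact absurd hxy (by simp)
    · by_cases h2 : Q y
      · rw [dif_neg h1, dif_pos h2] at hxy
        exact absurd hxy (by simp)
      · rw [dif_neg h1, dif_neg h2] at hxy
        exact Subtype.mk.inj (Sum.inr.inj hxy)
  · rw [hcardZ, ← hsplit2]
    omega
  · have : Fintype.card Z - Fintype.card X = W.card - QF.card := by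
      rw [hcardZ, ← hsplit2]
      omega
    rw [this]
    omega
  · refine le_trans (Finset.card_le_card (t := ((univ : Finset G) ×ˢ NQ) ∪ Err) ?_) ?_
    · rintro ⟨g, x⟩ hp
      simp only [mem_filter, mem_univ, true_and] at hp
      simp only [mem_union, mem_product, mem_univ, true_and]
      by_contra hne
      push Not at hne
      obtain ⟨hx, hx2⟩ := hne
      have hQ : Q x := by
        by_contra h
        exact hx (by simp [NQ, h])
      obtain ⟨h1, h2, h3⟩ := hErr (g, x) hx2
      simp only at h1 h2 h3
      have hQ2 : Q (f g x) := ⟨h2, by rw [← h3]; exact (hWinv g _).1 hQ.2⟩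
      apply hp
      simp only [j]
      rw [dif_pos hQ, dif_pos hQ2, hβinl]
      congr 1
      exact Subtype.ext h3
    · refine le_trans (Finset.card_union_le _ _) ?_
      rw [Finset.card_product, Finset.card_univ]
      omega

end Pool.Agent.Lib_MP_3a79a1_al
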