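import Mathlib

/-!
Normal forms for `H × (Z/2)^k` and polynomial control of the multiplicativity defect.
-/

set_option linter.unusedSectionVars false

namespace Pool.Agent.Lib_MP_3a79a1_al

open Finset

section hd

variable {X : Type} [Fintype X] [DecidableEq X]

/-- number of points where two permutations differ. -/
def hd (σ τ : Equiv.Perm X) : ℕ := (univ.filter (fun x : X => σ x ≠ τ x)).card

lemma hd_self (σ : Equiv.Perm X) : hd σ σ = 0 := by simp [hd]

lemma hd_comm (σ τ : Equiv.Perm X) : hd σ τ = hd τ σ := by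
  unfold hd
  congr 1
  ext x
  simp [ne_comm]

lemma hd_tri (σ τ ρ : Equiv.Perm X) : hd σ ρ ≤ hd σ τ + hd τ ρ := by
  unfold hd
  refine le_trans (Finset.card_le_card ?_) (Finset.card_union_le _ _)
  intro x
  simp only [mem_filter, mem_univ, true_and, mem_union]
  intro h1
  by_contra h2
  push Not at h2
  exact h1 (h2.1.trans h2.2)

lemma hd_mul_left (ρ σ τ : Equiv.Perm X) : hd (ρ * σ) (ρ * τ) = hd σ τ := by
  unfold hd
  congr 1
  ext x
  simp

lemma hd_mul_right (ρ σ τ : Equiv.Perm X) : hd (σ * ρ) (τ * ρ) = hd σ τ := by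
  unfold hd
  refine Finset.card_bij (fun x _ => ρ x) ?_ ?_ ?_
  · intro x hx
    rw [mem_filter] at hx ⊢
    exact ⟨mem_univ _, hx.2⟩
  · intro a _ b _ h
    exact ρ.injective h
  · intro x hx
    refine ⟨ρ.symm x, ?_, by simp⟩
    rw [mem_filter] at hx ⊢
    refine ⟨mem_univ _, ?_⟩
    rw [Equiv.Perm.mul_apply, Equiv.Perm.mul_apply, Equiv.apply_symm_apply]
    exact hx.2

/-- the power of `b` with exponent in `Z/2`. -/
def pw (b : Equiv.Perm X) (t : Multiplicative (ZMod 2)) : Equiv.Perm X := if t = 1 then 1 else b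

/-- ordered product over a list of indices. -/
def Xl {k : ℕ} (b : Fin k → Equiv.Perm X) (l : List (Fin k))
    (v : Fin k → Multiplicative (ZMod 2)) : Equiv.Perm X :=
  (l.map (fun i => pw (b i) (v i))).prod

lemma mz2 (s t : Multiplicative (ZMod 2)) (hs : s ≠ 1) (ht : t ≠ 1) : s * t = 1 := by
  revert s t
  decide

lemma hd_pw {b : Equiv.Perm X} {η : ℕ} (hb : hd (b * b) 1 ≤ η)
    (s t : Multiplicative (ZMod 2)) : hd (pw b s * pw b t) (pw b (s * t)) ≤ η := by
  unfold pw
  by_cases hs : s = 1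
  · subst hs
    simp [hd_self]
  · by_cases ht : t = 1
    · subst ht
      simp [hd_self]
    · rw [if_neg hs, if_neg ht, if_pos (mz2 s t hs ht)]
      exact hb

lemma hd_comm_pw {b σ : Equiv.Perm X} {η : ℕ} (hb : hd (σ * b) (b * σ) ≤ η)
    (s : Multiplicative (ZMod 2)) : hd (σ * pw b s) (pw b s * σ) ≤ η := by
  unfold pw
  by_cases hs : s = 1
  · subst hs
    simp [hd_self]
  · rw [if_neg hs]
    exact hb

lemma hd_comm_Xl {k : ℕ} {b : Fin k → Equiv.Perm X} {σ : Equiv.Perm X} {η : ℕ}
    (hb : ∀ i, hd (σ * b i) (b i * σ) ≤ η) (l : List (Fin k))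
    (v : Fin k → Multiplicative (ZMod 2)) :
    hd (σ * Xl b l v) (Xl b l v * σ) ≤ l.length * η := by
  induction l with
  | nil => simp [Xl, hd_self]
  | cons i l ih =>
    have h1 : Xl b (i :: l) v = pw (b i) (v i) * Xl b l v := by simp [Xl]
    rw [h1]
    have h2 := hd_tri (σ * (pw (b i) (v i) * Xl b l v)) (pw (b i) (v i) * (σ * Xl b l v))
      ((pw (b i) (v i) * Xl b l v) * σ)
    have h3 : hd (σ * (pw (b i) (v i) * Xl b l v)) (pw (b i) (v i) * (σ * Xl b l v)) ≤ η := by
      rw [← mul_assoc, ← mul_assoc, hd_mul_right]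
      exact hd_comm_pw (hb i) _
    have h4 : hd (pw (b i) (v i) * (σ * Xl b l v)) ((pw (b i) (v i) * Xl b l v) * σ)
        ≤ l.length * η := by
      rw [mul_assoc, hd_mul_left]
      exact ih
    simp only [List.length_cons]
    calc _ ≤ _ := h2
      _ ≤ η + l.length * η := Nat.add_le_add h3 h4
      _ = _ := by ring

lemma hd_comm_pw' {b σ : Equiv.Perm X} {η : ℕ} (hb : hd (σ * b) (b * σ) ≤ η)
    (s : Multiplicative (ZMod 2)) : hd (pw σ s * b) (b * pw σ s) ≤ η := by
  unfold pw
  by_cases hs : s = 1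
  · subst hs
    simp [hd_self]
  · rw [if_neg hs]
    exact hb

lemma hd_Xl_mul {k : ℕ} {b : Fin k → Equiv.Perm X} {η : ℕ}
    (h3 : ∀ i j, hd (b i * b j) (b j * b i) ≤ η) (h4 : ∀ i, hd (b i * b i) 1 ≤ η)
    (l : List (Fin k)) (v w : Fin k → Multiplicative (ZMod 2)) :
    hd (Xl b l v * Xl b l w) (Xl b l (v * w)) ≤ l.length * (l.length + 1) * η := by
  induction l with
  | nil => simp [Xl, hd_self]
  | cons i l ih =>
    have h1 : ∀ v, Xl b (i :: l) v = pw (b i) (v i) * Xl b l v := by
      intro v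
      simp [Xl]
    rw [h1, h1, h1]
    set p := pw (b i) (v i)
    set q := pw (b i) (w i)
    set r := pw (b i) ((v * w) i)
    have e1 : hd (p * Xl b l v * (q * Xl b l w)) (p * (q * Xl b l v) * Xl b l w)
        ≤ l.length * η := by
      have : p * Xl b l v * (q * Xl b l w) = p * (Xl b l v * q) * Xl b l w := by
        simp only [mul_assoc]
      rw [this, hd_mul_right, hd_mul_left, hd_comm]
      exact hd_comm_Xl (fun j => hd_comm_pw' (h3 i j) _) l v
    have e2 : hd (p * (q * Xl b l v) * Xl b l w) (r * (Xl b l v * Xl b l w)) ≤ η := by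
      have : p * (q * Xl b l v) * Xl b l w = (p * q) * (Xl b l v * Xl b l w) := by
        simp only [mul_assoc]
      rw [this, hd_mul_right]
      exact hd_pw (h4 i) _ _
    have e3 : hd (r * (Xl b l v * Xl b l w)) (r * Xl b l (v * w))
        ≤ l.length * (l.length + 1) * η := by
      rw [hd_mul_left]
      exact ih
    have t1 := hd_tri (p * Xl b l v * (q * Xl b l w)) (p * (q * Xl b l v) * Xl b l w)
      (r * Xl b l (v * w))
    have t2 := hd_tri (p * (q * Xl b l v) * Xl b l w) (r * (Xl b l v * Xl b l w))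
      (r * Xl b l (v * w))
    simp only [List.length_cons]
    calc hd (p * Xl b l v * (q * Xl b l w)) (r * Xl b l (v * w))
        ≤ l.length * η + (η + l.length * (l.length + 1) * η) := by omega
      _ ≤ (l.length + 1) * (l.length + 1 + 1) * η := by nlinarith

variable {H : Type} [Group H]

/-- the normal form map. -/
def NF {k : ℕ} (a : H → Equiv.Perm X) (b : Fin k → Equiv.Perm X)
    (g : H × (Fin k → Multiplicative (ZMod 2))) : Equiv.Perm X :=
  a g.1 * Xl b (List.finRange k) g.2

lemma hd_NF {k : ℕ} {a : H → Equiv.Perm X} {b : Fin k → Equiv.Perm X} {η : ℕ}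
    (h1 : ∀ h h', hd (a h * a h') (a (h * h')) ≤ η)
    (h2 : ∀ h i, hd (a h * b i) (b i * a h) ≤ η)
    (h3 : ∀ i j, hd (b i * b j) (b j * b i) ≤ η) (h4 : ∀ i, hd (b i * b i) 1 ≤ η)
    (g g' : H × (Fin k → Multiplicative (ZMod 2))) :
    hd (NF a b g * NF a b g') (NF a b (g * g')) ≤ (k + 1) ^ 2 * η := by
  obtain ⟨h, v⟩ := g
  obtain ⟨h', v'⟩ := g'
  simp only [NF, Prod.mk_mul_mk]
  set A := Xl b (List.finRange k) v
  set B := Xl b (List.finRange k) v'
  set C := Xl b (List.finRange k) (v * v')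
  have e1 : hd (a h * A * (a h' * B)) (a h * (a h' * A) * B) ≤ k * η := by
    have : a h * A * (a h' * B) = a h * (A * a h') * B := by simp only [mul_assoc]
    rw [this, hd_mul_right, hd_mul_left, hd_comm]
    have := hd_comm_Xl (h2 h') (List.finRange k) v
    simpa using this
  have e2 : hd (a h * (a h' * A) * B) (a (h * h') * (A * B)) ≤ η := by
    have : a h * (a h' * A) * B = a h * a h' * (A * B) := by simp only [mul_assoc]
    rw [this, hd_mul_right]
    exact h1 h h'
  have e3 : hd (a (h * h') * (A * B)) (a (h * h') * C) ≤ k * (k + 1) * η := by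
    rw [hd_mul_left]
    have := hd_Xl_mul h3 h4 (List.finRange k) v v'
    simpa using this
  have t1 := hd_tri (a h * A * (a h' * B)) (a h * (a h' * A) * B) (a (h * h') * C)
  have t2 := hd_tri (a h * (a h' * A) * B) (a (h * h') * (A * B)) (a (h * h') * C)
  calc hd (a h * A * (a h' * B)) (a (h * h') * C)
      ≤ k * η + (η + k * (k + 1) * η) := by omega
    _ = (k + 1) ^ 2 * η := by ring

lemma Xl_one {k : ℕ} (b : Fin k → Equiv.Perm X) (l : List (Fin k)) : Xl b l 1 = 1 := by
  simp [Xl, pw]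

lemma NF_left {k : ℕ} (a : H → Equiv.Perm X) (b : Fin k → Equiv.Perm X) (h : H) :
    NF a b (h, 1) = a h := by
  simp [NF, Xl_one]

lemma Xl_single {k : ℕ} (b : Fin k → Equiv.Perm X) (i : Fin k) (l : List (Fin k)) :
    (i ∉ l → Xl b l (Pi.mulSingle i (Multiplicative.ofAdd 1)) = 1) ∧
    (l.Nodup → i ∈ l → Xl b l (Pi.mulSingle i (Multiplicative.ofAdd 1)) = b i) := by
  induction l with
  | nil => simp [Xl]
  | cons j l ih =>
    have h1 : Xl b (j :: l) (Pi.mulSingle i (Multiplicative.ofAdd 1)) =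
      pw (b j) ((Pi.mulSingle i (Multiplicative.ofAdd 1) : Fin k → Multiplicative (ZMod 2)) j) *
        Xl b l (Pi.mulSingle i (Multiplicative.ofAdd 1)) := by simp [Xl]
    rw [h1]
    constructor
    · intro h
      simp only [List.mem_cons, not_or] at h
      rw [ih.1 h.2, Pi.mulSingle_eq_of_ne (Ne.symm h.1)]
      simp [pw]
    · intro hnd h
      simp only [List.nodup_cons] at hnd
      by_cases hij : i = j
      · subst hij
        rw [ih.1 hnd.1, Pi.mulSingle_eq_same]
        simp [pw]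
      · have : i ∈ l := by
          simp only [List.mem_cons] at h
          tauto
        rw [ih.2 hnd.2 this, Pi.mulSingle_eq_of_ne (Ne.symm hij)]
        simp [pw]

lemma NF_right {k : ℕ} (a : H → Equiv.Perm X) (ha : a 1 = 1) (b : Fin k → Equiv.Perm X)
    (i : Fin k) : NF a b (1, Pi.mulSingle i (Multiplicative.ofAdd 1)) = b i := by
  simp only [NF, ha, one_mul]
  exact (Xl_single b i (List.finRange k)).2 (List.nodup_finRange k) (List.mem_finRange i)

end hd

end Pool.Agent.Lib_MP_3a79a1_al
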