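import Mathlib

/-!
The presentation of `H × (Z/2)^k` by the multiplication table of `H`, the standard
presentation of `(Z/2)^k` and commutation relations.
-/

set_option linter.unusedSectionVars false

namespace Pool.Agent.Lib_MP_3a79a1_al

open Finset

section pres

variable (H : Type) [Group H] [Fintype H] [DecidableEq H] (k : ℕ)

/-- the generators: non-identity elements of `H` and `k` further generators. -/
abbrev Gen : Type := {h : H // h ≠ 1} ⊕ Fin k

variable {H k}

/-- the word of length at most one representing `h`. -/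
def wd (h : H) : FreeGroup (Gen H k) :=
  if hh : h = 1 then 1 else FreeGroup.of (Sum.inl ⟨h, hh⟩)

/-- the generator `y_i`. -/
def yy (i : Fin k) : FreeGroup (Gen H k) := FreeGroup.of (Sum.inr i)

/-- multiplication table relation. -/
def rT (p : {h : H // h ≠ 1} × {h : H // h ≠ 1}) : FreeGroup (Gen H k) :=
  wd p.1.1 * wd p.2.1 * (wd (p.1.1 * p.2.1))⁻¹

/-- commutation of `H` with `y_i`. -/
def rC (p : {h : H // h ≠ 1} × Fin k) : FreeGroup (Gen H k) :=
  wd p.1.1 * yy p.2 * (wd p.1.1)⁻¹ * (yy p.2)⁻¹

/-- commutation of `y_i` with `y_j`. -/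
def rY (p : Fin k × Fin k) : FreeGroup (Gen H k) :=
  yy p.1 * yy p.2 * (yy p.1)⁻¹ * (yy p.2)⁻¹

/-- `y_i` has order two. -/
def rS (i : Fin k) : FreeGroup (Gen H k) := yy i * yy i

variable (H k)

/-- the set of relations. -/
def Rel : Finset (FreeGroup (Gen H k)) :=
  (univ.image rT ∪ univ.image rC) ∪ ((univ.filter (fun p : Fin k × Fin k => p.1 ≠ p.2)).image rY ∪
    univ.image rS)

variable {H k}

lemma rT_mem (p : {h : H // h ≠ 1} × {h : H // h ≠ 1}) : (rT p : FreeGroup (Gen H k)) ∈ Rel H k := by
  simp [Rel]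

lemma rC_mem (p : {h : H // h ≠ 1} × Fin k) : (rC p : FreeGroup (Gen H k)) ∈ Rel H k := by
  simp only [Rel, mem_union, mem_image, mem_univ, true_and]
  exact Or.inl (Or.inr ⟨p, rfl⟩)

lemma rY_mem (p : Fin k × Fin k) (h : p.1 ≠ p.2) : (rY p : FreeGroup (Gen H k)) ∈ Rel H k := by
  simp only [Rel, mem_union, mem_image, mem_univ, true_and, mem_filter]
  exact Or.inr (Or.inl ⟨p, h, rfl⟩)

lemma rS_mem (i : Fin k) : (rS i : FreeGroup (Gen H k)) ∈ Rel H k := by
  simp only [Rel, mem_union, mem_image, mem_univ, true_and, mem_filter]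
  exact Or.inr (Or.inr ⟨i, rfl⟩)

/-- lengths of words. -/
lemma norm_wd (h : H) : (wd h : FreeGroup (Gen H k)).norm ≤ 1 := by
  unfold wd
  split_ifs
  · simp
  · simp

lemma norm_yy (i : Fin k) : (yy i : FreeGroup (Gen H k)).norm ≤ 1 := by
  simp [yy]

lemma norm_rel (r : FreeGroup (Gen H k)) (hr : r ∈ Rel H k) : r.norm ≤ 4 := by
  simp only [Rel, mem_union, mem_image, mem_univ, true_and, mem_filter] at hr
  rcases hr with (⟨p, rfl⟩ | ⟨p, rfl⟩) | (⟨p, _, rfl⟩ | ⟨i, rfl⟩)
  · unfold rT
    have h1 := FreeGroup.norm_mul_le (wd p.1.1 * wd p.2.1 : FreeGroup (Gen H k))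
      (wd (p.1.1 * p.2.1))⁻¹
    have h2 := FreeGroup.norm_mul_le (wd p.1.1 : FreeGroup (Gen H k)) (wd p.2.1)
    rw [FreeGroup.norm_inv_eq] at h1
    have h3 := norm_wd (k := k) p.1.1
    have h4 := norm_wd (k := k) p.2.1
    have h5 := norm_wd (k := k) (p.1.1 * p.2.1)
    omega
  · unfold rC
    have h1 := FreeGroup.norm_mul_le (wd p.1.1 * yy p.2 * (wd p.1.1)⁻¹ : FreeGroup (Gen H k))
      (yy p.2)⁻¹
    have h2 := FreeGroup.norm_mul_le (wd p.1.1 * yy p.2 : FreeGroup (Gen H k)) (wd p.1.1)⁻¹
    have h3 := FreeGroup.norm_mul_le (wd p.1.1 : FreeGroup (Gen H k)) (yy p.2)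
    rw [FreeGroup.norm_inv_eq] at h1 h2
    have h4 := norm_wd (k := k) p.1.1
    have h5 := norm_yy (H := H) p.2
    omega
  · unfold rY
    have h1 := FreeGroup.norm_mul_le (yy p.1 * yy p.2 * (yy p.1)⁻¹ : FreeGroup (Gen H k))
      (yy p.2)⁻¹
    have h2 := FreeGroup.norm_mul_le (yy p.1 * yy p.2 : FreeGroup (Gen H k)) (yy p.1)⁻¹
    have h3 := FreeGroup.norm_mul_le (yy p.1 : FreeGroup (Gen H k)) (yy p.2)
    rw [FreeGroup.norm_inv_eq] at h1 h2
    have h4 := norm_yy (H := H) p.1
    have h5 := norm_yy (H := H) p.2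
    omega
  · unfold rS
    have h3 := FreeGroup.norm_mul_le (yy i : FreeGroup (Gen H k)) (yy i)
    have h5 := norm_yy (H := H) i
    omega

lemma rel_card : (Rel H k).card ≤ Fintype.card H ^ 2 + Fintype.card H * k + (k ^ 2 + k) := by
  unfold Rel
  have hsub : Fintype.card {h : H // h ≠ 1} ≤ Fintype.card H :=
    Fintype.card_subtype_le _
  refine le_trans (Finset.card_union_le _ _) (Nat.add_le_add ?_ ?_)
  · refine le_trans (Finset.card_union_le _ _) (Nat.add_le_add ?_ ?_)
    · refine le_trans Finset.card_image_le ?_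
      rw [Finset.card_univ, Fintype.card_prod, sq]
      exact Nat.mul_le_mul hsub hsub
    · refine le_trans Finset.card_image_le ?_
      rw [Finset.card_univ, Fintype.card_prod, Fintype.card_fin]
      exact Nat.mul_le_mul hsub le_rfl
  · refine le_trans (Finset.card_union_le _ _) (Nat.add_le_add ?_ ?_)
    · refine le_trans Finset.card_image_le ?_
      refine le_trans (Finset.card_le_univ _) ?_
      rw [Fintype.card_prod, Fintype.card_fin, sq]
    · refine le_trans Finset.card_image_le ?_
      rw [Finset.card_univ, Fintype.card_fin]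

/-- the multiplication table relations are pairwise distinct. -/
lemma rT_injective : Function.Injective (rT : _ → FreeGroup (Gen H k)) := by
  have key : ∀ p : {h : H // h ≠ 1} × {h : H // h ≠ 1},
      ((rT p : FreeGroup (Gen H k)).toWord).take 2
        = [(Sum.inl p.1, true), (Sum.inl p.2, true)] := by
    rintro ⟨⟨g, hg⟩, ⟨h, hh⟩⟩
    unfold rT wd
    simp only [dif_neg hg, dif_neg hh]
    by_cases hgh : g * h = 1
    · rw [dif_pos hgh]
      simp [FreeGroup.toWord_mul]
    · rw [dif_neg hgh]
      have hne : h ≠ g * h := by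
        intro h0
        exact hg (by simpa using h0.symm)
      simp [FreeGroup.toWord_mul, FreeGroup.toWord_inv, FreeGroup.invRev, hne]
  intro p q hpq
  have h1 := key p
  have h2 := key q
  rw [hpq, h2] at h1
  simp only [List.cons.injEq, Prod.mk.injEq, Sum.inl.injEq, and_true] at h1
  exact Prod.ext h1.1.symm h1.2.symm

/-! ### the group -/

/-- the elementary abelian group of rank `k`. -/
abbrev EE (k : ℕ) : Type := Fin k → Multiplicative (ZMod 2)

/-- values of generators in `H × (Z/2)^k`. -/
def genVal : Gen H k → H × EE k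
  | Sum.inl h => (h.1, 1)
  | Sum.inr i => (1, Pi.mulSingle i (Multiplicative.ofAdd 1))

lemma lift_wd (h : H) : FreeGroup.lift (genVal (H := H) (k := k)) (wd h) = (h, 1) := by
  unfold wd
  split_ifs with hh
  · subst hh
    rw [map_one]
    rfl
  · simp [genVal]

lemma lift_yy (i : Fin k) : FreeGroup.lift (genVal (H := H) (k := k)) (yy i) =
    (1, Pi.mulSingle i (Multiplicative.ofAdd 1)) := by
  simp [yy, genVal]

lemma lift_rel (r : FreeGroup (Gen H k)) (hr : r ∈ (Rel H k : Set (FreeGroup (Gen H k)))) :
    FreeGroup.lift (genVal (H := H) (k := k)) r = 1 := by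
  simp only [Rel, coe_union, coe_image, Set.mem_union, Set.mem_image, mem_coe,
    mem_univ, true_and, mem_filter] at hr
  rcases hr with (⟨p, rfl⟩ | ⟨p, rfl⟩) | (⟨p, _, rfl⟩ | ⟨i, rfl⟩)
  · simp [rT, lift_wd]
  · simp [rC, lift_wd, lift_yy]
  · simp only [rY, map_mul, map_inv, lift_yy]
    ext
    · simp
    · simp
  · simp only [rS, map_mul, lift_yy]
    ext j
    · simp
    · by_cases hj : j = i
      · subst hj
        simp
        decide
      · simp [hj]

/-- a homomorphism from `Z/2` given by an element of order dividing two. -/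
def homOfSq {P : Type*} [Group P] (p : P) (hp : p * p = 1) : Multiplicative (ZMod 2) →* P where
  toFun t := if t = 1 then 1 else p
  map_one' := by simp
  map_mul' := by
    intro s t
    have key : ∀ s t : Multiplicative (ZMod 2), s ≠ 1 → t ≠ 1 → s * t = 1 := by decide
    by_cases hs : s = 1
    · subst hs; simp
    · by_cases ht : t = 1
      · subst ht; simp
      · rw [if_pos (key s t hs ht), if_neg hs, if_neg ht, hp]

/-- the presented group. -/
abbrev PG (H : Type) [Group H] [Fintype H] [DecidableEq H] (k : ℕ) : Type :=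
  PresentedGroup (Rel H k : Set (FreeGroup (Gen H k)))

lemma mk_rel {r : FreeGroup (Gen H k)} (hr : r ∈ Rel H k) :
    PresentedGroup.mk (Rel H k : Set (FreeGroup (Gen H k))) r = 1 :=
  PresentedGroup.one_of_mem hr

/-- homomorphism from `H`. -/
noncomputable def homH : H →* PG H k where
  toFun h := PresentedGroup.mk _ (wd h)
  map_one' := by simp [wd]
  map_mul' := by
    intro g h
    by_cases hg : g = 1
    · subst hg
      simp [wd]
    · by_cases hh : h = 1
      · subst hh
        simp [wd]
      · have h1 := mk_rel (rT_mem (k := k) (⟨g, hg⟩, ⟨h, hh⟩))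
        simp only [rT, map_mul, map_inv] at h1
        exact (mul_inv_eq_one.1 h1).symm

lemma homH_comm (h : H) (i : Fin k) :
    Commute (homH h : PG H k) (PresentedGroup.mk _ (yy i)) := by
  by_cases hh : h = 1
  · subst hh
    rw [map_one]
    exact Commute.one_left _
  · have h1 := mk_rel (rC_mem (k := k) (⟨h, hh⟩, i))
    simp only [rC, map_mul, map_inv] at h1
    have h2 := mul_inv_eq_one.1 h1
    have h3 := mul_inv_eq_iff_eq_mul.1 h2
    exact h3

lemma yy_comm (i j : Fin k) :
    Commute (PresentedGroup.mk _ (yy i) : PG H k) (PresentedGroup.mk _ (yy j)) := by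
  by_cases hij : i = j
  · subst hij
    exact Commute.refl _
  · have h1 := mk_rel (rY_mem (H := H) (i, j) hij)
    simp only [rY, map_mul, map_inv] at h1
    have h2 := mul_inv_eq_one.1 h1
    have h3 := mul_inv_eq_iff_eq_mul.1 h2
    exact h3

/-- homomorphism from the `i`th factor. -/
noncomputable def homI (i : Fin k) : Multiplicative (ZMod 2) →* PG H k :=
  homOfSq (PresentedGroup.mk _ (yy i)) (by
    have h1 := mk_rel (rS_mem (H := H) i)
    simpa only [rS, map_mul] using h1)

lemma homI_comm_of {x : PG H k} {i : Fin k} (h : Commute x (PresentedGroup.mk _ (yy i)))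
    (t : Multiplicative (ZMod 2)) : Commute x (homI i t) := by
  change Commute x (if t = 1 then 1 else _)
  split_ifs
  · exact Commute.one_right _
  · exact h

/-- homomorphism from `(Z/2)^k`. -/
noncomputable def homE : EE k →* PG H k :=
  MonoidHom.noncommPiCoprod (fun i => homI i) (fun i j _ s t => by
    refine homI_comm_of (Commute.symm ?_) t
    exact homI_comm_of (yy_comm j i) s)

lemma homE_single (i : Fin k) (t : Multiplicative (ZMod 2)) :
    (homE (Pi.mulSingle i t) : PG H k) = homI i t :=
  MonoidHom.noncommPiCoprod_mulSingle _ _ _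

lemma homHE_comm (h : H) (v : EE k) : Commute (homH h : PG H k) (homE v) :=
  MonoidHom.commute_noncommPiCoprod _ (fun i t => homI_comm_of (homH_comm h i) t) v

/-- homomorphism from the product. -/
noncomputable def homG : H × EE k →* PG H k :=
  MonoidHom.noncommCoprod homH homE homHE_comm

lemma homG_apply (h : H) (v : EE k) : (homG (h, v) : PG H k) = homH h * homE v := rfl

/-- the evaluation homomorphism. -/
noncomputable def toProd : PG H k →* H × EE k := PresentedGroup.toGroup (f := genVal) lift_rel

lemma toProd_mk (x : FreeGroup (Gen H k)) :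
    toProd (PresentedGroup.mk _ x : PG H k) = FreeGroup.lift (genVal (H := H) (k := k)) x := rfl

lemma toProd_homH (h : H) : toProd (homH h : PG H k) = (h, 1) := lift_wd h

lemma toProd_homI (i : Fin k) (t : Multiplicative (ZMod 2)) :
    toProd (homI i t : PG H k) = (1, Pi.mulSingle i t) := by
  have ht2 : ∀ t : Multiplicative (ZMod 2), t ≠ 1 → t = Multiplicative.ofAdd 1 := by decide
  by_cases ht : t = 1
  · subst ht
    rw [map_one, map_one, Pi.mulSingle_one]
    rfl
  · have h1 : (homI i t : PG H k) = PresentedGroup.mk _ (yy i) := by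
      change (if t = 1 then 1 else _) = _
      rw [if_neg ht]
    rw [h1, toProd_mk, lift_yy, ht2 t ht]

lemma toProd_homE (v : EE k) : toProd (homE v : PG H k) = (1, v) := by
  have hE : (toProd.comp (homE (H := H) (k := k))) = MonoidHom.inr H (EE k) := by
    refine MonoidHom.pi_ext (fun i t => ?_)
    rw [MonoidHom.comp_apply, homE_single, toProd_homI]
    rfl
  exact DFunLike.congr_fun hE v

/-- The presentation presents `H × (Z/2)^k`. -/
noncomputable def presEquiv : PG H k ≃* H × EE k := by
  refine MonoidHom.toMulEquiv toProd homG ?_ ?_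
  · refine PresentedGroup.ext (fun x => ?_)
    rw [MonoidHom.comp_apply, MonoidHom.id_apply]
    have h0 : toProd (PresentedGroup.of x : PG H k) = genVal x := by
      unfold toProd
      exact PresentedGroup.toGroup.of lift_rel
    rw [h0]
    rcases x with h | i
    · change homG (h.1, 1) = _
      rw [homG_apply, map_one, mul_one]
      change PresentedGroup.mk _ (wd h.1) = _
      unfold wd
      rw [dif_neg h.2]
      rfl
    · change homG (1, Pi.mulSingle i (Multiplicative.ofAdd 1)) = _
      rw [homG_apply, map_one, one_mul, homE_single]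
      rfl
  · refine MonoidHom.ext (fun p => ?_)
    obtain ⟨h, v⟩ := p
    rw [MonoidHom.comp_apply, homG_apply, map_mul, toProd_homH, toProd_homE, MonoidHom.id_apply,
      Prod.mk_mul_mk, mul_one, one_mul]

end pres

end Pool.Agent.Lib_MP_3a79a1_al
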