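import Pool.Agent.Lib_MP_3a79a1_al.Unif
import Pool.Agent.Lib_MP_3a79a1_al.Normal
import Pool.Agent.Lib_MP_3a79a1_al.Pres

/-!
Counting versions of the two stability estimates for the presentation `Rel H k`.
-/

set_option linter.unusedSectionVars false

namespace Pool.Agent.Lib_MP_3a79a1_al

open Finset

section count

variable {H : Type} [Group H] [Fintype H] [DecidableEq H] {k n : ℕ}

/-- total number of violations of the relations. -/
def totV (α : Gen H k → Equiv.Perm (Fin n)) : ℕ :=
  ∑ r ∈ Rel H k, hd (FreeGroup.lift α r) 1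

lemma hd_mul_inv {X : Type} [Fintype X] [DecidableEq X] (σ τ : Equiv.Perm X) :
    hd (σ * τ⁻¹) 1 = hd σ τ := by
  have := hd_mul_right τ (σ * τ⁻¹) 1
  rw [inv_mul_cancel_right, one_mul] at this
  exact this.symm

variable (α : Gen H k → Equiv.Perm (Fin n))

/-- the induced map on `H`. -/
def aH (h : H) : Equiv.Perm (Fin n) := FreeGroup.lift α (wd h)

lemma aH_one : aH α (1 : H) = 1 := by
  simp [aH, wd]

lemma aH_ne (h : {h : H // h ≠ 1}) : aH α h.1 = α (Sum.inl h) := by
  unfold aH wd
  rw [dif_neg h.2]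
  simp

/-- the induced map on `Fin k`. -/
def bK (i : Fin k) : Equiv.Perm (Fin n) := α (Sum.inr i)

lemma lift_rT (p : {h : H // h ≠ 1} × {h : H // h ≠ 1}) :
    hd (FreeGroup.lift α (rT p)) 1 = hd (aH α p.1.1 * aH α p.2.1) (aH α (p.1.1 * p.2.1)) := by
  unfold rT
  rw [map_mul, map_inv, map_mul, hd_mul_inv]
  rfl

lemma hd_le_totV {r : FreeGroup (Gen H k)} (hr : r ∈ Rel H k) :
    hd (FreeGroup.lift α r) 1 ≤ totV α :=
  Finset.single_le_sum (f := fun r => hd (FreeGroup.lift α r) 1) (fun _ _ => Nat.zero_le _) hr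

lemma h1 (h h' : H) : hd (aH α h * aH α h') (aH α (h * h')) ≤ totV α := by
  by_cases hh : h = 1
  · subst hh
    simp [aH_one, hd_self]
  · by_cases hh' : h' = 1
    · subst hh'
      simp [aH_one, hd_self]
    · have := hd_le_totV α (rT_mem (⟨h, hh⟩, ⟨h', hh'⟩))
      rwa [lift_rT] at this

lemma h2 (h : H) (i : Fin k) : hd (aH α h * bK α i) (bK α i * aH α h) ≤ totV α := by
  by_cases hh : h = 1
  · subst hh
    simp [aH_one, hd_self]
  · have := hd_le_totV α (rC_mem (⟨h, hh⟩, i))
    unfold rC at this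
    rw [map_mul, map_inv, hd_mul_inv, map_mul, map_inv] at this
    have h3 := hd_mul_right (aH α h) (FreeGroup.lift α (wd h * yy i) * (FreeGroup.lift α (wd h))⁻¹)
      (FreeGroup.lift α (yy i))
    change hd (FreeGroup.lift α (wd h * yy i) * (FreeGroup.lift α (wd h))⁻¹ *
      FreeGroup.lift α (wd h)) (FreeGroup.lift α (yy i) * aH α h) = _ at h3
    rw [inv_mul_cancel_right, map_mul] at h3
    have h4 : FreeGroup.lift α (yy i) = bK α i := by simp [yy, bK]
    rw [h4] at h3 this
    change hd (aH α h * bK α i) (bK α i * aH α h) = _ at h3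
    rw [h3]
    rw [map_mul, h4] at this
    exact this

lemma h3 (i j : Fin k) : hd (bK α i * bK α j) (bK α j * bK α i) ≤ totV α := by
  by_cases hij : i = j
  · subst hij
    simp [hd_self]
  · have := hd_le_totV α (rY_mem (H := H) (i, j) hij)
    unfold rY at this
    simp only [map_mul, map_inv] at this
    have h4 : ∀ i, FreeGroup.lift α (yy i) = bK α i := fun i => by simp [yy, bK]
    rw [h4, h4, hd_mul_inv] at this
    have h5 := hd_mul_right (bK α i) (bK α i * bK α j * (bK α i)⁻¹) (bK α j)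
    rw [inv_mul_cancel_right] at h5
    rw [h5]
    exact this

lemma h4 (i : Fin k) : hd (bK α i * bK α i) 1 ≤ totV α := by
  have := hd_le_totV α (rS_mem (H := H) i)
  unfold rS at this
  have h4 : FreeGroup.lift α (yy i) = bK α i := by simp [yy, bK]
  rwa [map_mul, h4] at this

lemma viol_aH_le : (viol (aH α : H → _)).card ≤ totV α := by
  have e1 : (viol (aH α : H → _)).card
      = ∑ h : H, ∑ h' : H, hd (aH α h * aH α h') (aH α (h * h')) := by
    unfold viol
    rw [Finset.card_filter, Fintype.sum_prod_type]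
    refine Finset.sum_congr rfl (fun h _ => ?_)
    rw [Fintype.sum_prod_type]
    refine Finset.sum_congr rfl (fun h' _ => ?_)
    rw [hd_comm]
    unfold hd
    rw [Finset.card_filter]
    rfl
  have e2 : ∑ h : H, ∑ h' : H, hd (aH α h * aH α h') (aH α (h * h'))
      = ∑ p : {h : H // h ≠ 1} × {h : H // h ≠ 1}, hd (FreeGroup.lift α (rT p)) 1 := by
    rw [Fintype.sum_eq_add_sum_subtype_ne _ (1 : H)]
    have z : ∑ h' : H, hd (aH α 1 * aH α h') (aH α (1 * h')) = 0 := by
      refine Finset.sum_eq_zero (fun h' _ => ?_)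
      rw [aH_one, one_mul, one_mul, hd_self]
    rw [z, zero_add, Fintype.sum_prod_type]
    refine Finset.sum_congr rfl (fun h _ => ?_)
    rw [Fintype.sum_eq_add_sum_subtype_ne _ (1 : H)]
    rw [aH_one, mul_one, mul_one, hd_self, zero_add]
    refine Finset.sum_congr rfl (fun h' _ => ?_)
    rw [lift_rT]
  have e3 : ∑ p : {h : H // h ≠ 1} × {h : H // h ≠ 1}, hd (FreeGroup.lift α (rT p)) 1
      = ∑ r ∈ (univ.image rT : Finset (FreeGroup (Gen H k))), hd (FreeGroup.lift α r) 1 := by
    rw [Finset.sum_image (fun p _ q _ h => rT_injective h)]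
  rw [e1, e2, e3]
  unfold totV
  refine Finset.sum_le_sum_of_subset ?_
  intro r hr
  simp only [Rel, mem_union]
  exact Or.inl (Or.inl hr)

/-- restriction of an action of the group to generators satisfies the relations -/
lemma lift_comp {N : ℕ} (β : H × EE k →* Equiv.Perm (Fin N)) (r : FreeGroup (Gen H k))
    (hr : r ∈ Rel H k) : FreeGroup.lift (fun s => β (genVal s)) r = 1 := by
  have h1 : FreeGroup.lift (fun s => β (genVal s)) = β.comp (FreeGroup.lift (genVal (H := H))) := by
    refine FreeGroup.ext_hom _ _ (fun s => ?_)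
    simp
  rw [h1, MonoidHom.comp_apply, lift_rel r (by exact_mod_cast hr), map_one]

/-- First estimate: all generators, polynomial loss. -/
theorem est_unif :
    ∃ (N : ℕ) (h : n ≤ N) (β : H × EE k →* Equiv.Perm (Fin N)),
      ∀ s : Gen H k, (N - n) + dis h (β (genVal s)) (α s) ≤ 661 * ((k + 1) ^ 2 * totV α) := by
  obtain ⟨N, h, β, hβ⟩ := stability_unif (NF (aH α) (bK α)) ((k + 1) ^ 2 * totV α) (by
    intro g g'
    refine le_trans (le_of_eq ?_) (hd_NF (h1 α) (h2 α) (h3 α) (h4 α) g g')
    rw [hd_comm]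
    rfl)
  refine ⟨N, h, β, fun s => ?_⟩
  rcases s with s | i
  · have := hβ (s.1, 1)
    rw [NF_left, aH_ne] at this
    exact this
  · have := hβ (1, Pi.mulSingle i (Multiplicative.ofAdd 1))
    rw [NF_right _ (aH_one α)] at this
    exact this

/-- Second estimate: only the generators in `H`, no loss. -/
theorem est_avg :
    ∃ (N : ℕ) (h : n ≤ N) (β : H × EE k →* Equiv.Perm (Fin N)),
      Fintype.card H * ∑ s : {h : H // h ≠ 1}, ((N - n) + dis h (β (genVal (Sum.inl s)))
        (α (Sum.inl s))) ≤ 330 * totV α := by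
  obtain ⟨N, h, β, hβ⟩ := stability_avg_fin (aH α : H → _)
  refine ⟨N, h, β.comp (MonoidHom.fst H (EE k)), ?_⟩
  refine le_trans (Nat.mul_le_mul_left _ ?_) (le_trans hβ (Nat.mul_le_mul_left _ (viol_aH_le α)))
  rw [Fintype.sum_eq_add_sum_subtype_ne _ (1 : H)]
  refine le_trans (le_of_eq ?_) (Nat.le_add_left _ _)
  refine Finset.sum_congr rfl (fun s _ => ?_)
  rw [aH_ne]
  rfl

end count

end Pool.Agent.Lib_MP_3a79a1_al
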