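import Pool.Agent.Lib_MP_3a79a1_al.Completion

/-!
Dimension-free flexible stability of multiplication tables of finite groups in permutations:
an averaged almost-homomorphism `G → Sym(X)` is close to an honest action on a slightly larger set.
-/

set_option linter.unusedSectionVars false

namespace Pool.Agent.Lib_MP_3a79a1_al

open Finset

section stab

variable {G : Type} [Group G] [Fintype G] [DecidableEq G]
variable {X : Type} [Fintype X] [DecidableEq X]
variable (f : G → Equiv.Perm X)

/-- distance between the orbit functions of `a` and `b`. -/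
def D (a b : G × X) : ℕ := (univ.filter (fun h : G => f (h * a.1) a.2 ≠ f (h * b.1) b.2)).card

lemma D_self (a : G × X) : D f a a = 0 := by
  simp [D]

lemma D_comm (a b : G × X) : D f a b = D f b a := by
  unfold D
  congr 1
  ext h
  simp [ne_comm]

lemma D_tri (a b c : G × X) : D f a c ≤ D f a b + D f b c := by
  unfold D
  refine le_trans (Finset.card_le_card ?_) (Finset.card_union_le _ _)
  intro h
  simp only [mem_filter, mem_univ, true_and, mem_union]
  intro h1
  by_contra h2
  push Not at h2
  exact h1 (h2.1.trans h2.2)

lemma D_smul (k : G) (a b : G × X) : D f (k * a.1, a.2) (k * b.1, b.2) = D f a b := by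
  unfold D
  refine Finset.card_bij (fun h _ => h * k) ?_ ?_ ?_
  · intro h hh
    simp only [mem_filter, mem_univ, true_and] at hh ⊢
    rwa [mul_assoc, mul_assoc]
  · intro a _ b _ h
    exact mul_right_cancel h
  · intro h hh
    refine ⟨h * k⁻¹, ?_, by simp⟩
    simp only [mem_filter, mem_univ, true_and] at hh ⊢
    simpa [mul_assoc] using hh

lemma D_one {x y : X} (h : x ≠ y) : D f (1, x) (1, y) = Fintype.card G := by
  unfold D
  rw [← Finset.card_univ]
  congr 1
  refine Finset.filter_true_of_mem (fun g _ => ?_)
  simpa using h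

/-- `a` is within `|G|/8` of the orbit function of some point `x`. -/
def isN (a : G × X) : Prop := ∃ x, 8 * D f a (1, x) < Fintype.card G

open Classical in
/-- number of `g` with `isN (g a)`. -/
noncomputable def pN (a : G × X) : ℕ := (univ.filter (fun g : G => isN f (g * a.1, a.2))).card

/-- more than three quarters of the orbit of `a` is near to points. -/
def Good (a : G × X) : Prop := 3 * Fintype.card G < 4 * pN f a

lemma pN_smul (k : G) (a : G × X) : pN f (k * a.1, a.2) = pN f a := by
  classical
  unfold pN
  refine Finset.card_bij (fun h _ => h * k) ?_ ?_ ?_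
  · intro h hh
    simp only [mem_filter, mem_univ, true_and] at hh ⊢
    rwa [mul_assoc]
  · intro a _ b _ h
    exact mul_right_cancel h
  · intro h hh
    refine ⟨h * k⁻¹, ?_, by simp⟩
    simp only [mem_filter, mem_univ, true_and] at hh ⊢
    simpa [mul_assoc] using hh

lemma good_smul (k : G) (a : G × X) : Good f (k * a.1, a.2) ↔ Good f a := by
  unfold Good
  rw [pN_smul]

lemma exists_common {a b c : G × X} (ha : Good f a) (hb : Good f b) (hc : Good f c) :
    ∃ g : G, isN f (g * a.1, a.2) ∧ isN f (g * b.1, b.2) ∧ isN f (g * c.1, c.2) := by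
  classical
  by_contra hne
  push Not at hne
  have hcov : (univ : Finset G) ⊆ (univ.filter (fun g : G => ¬ isN f (g * a.1, a.2))) ∪
      ((univ.filter (fun g : G => ¬ isN f (g * b.1, b.2))) ∪
      (univ.filter (fun g : G => ¬ isN f (g * c.1, c.2)))) := by
    intro g _
    simp only [mem_union, mem_filter, mem_univ, true_and]
    have := hne g
    tauto
  have h1 := le_trans (Finset.card_le_card hcov) (le_trans (Finset.card_union_le _ _)
    (Nat.add_le_add_left (Finset.card_union_le _ _) _))
  have key : ∀ a : G × X, Good f a →
      4 * (univ.filter (fun g : G => ¬ isN f (g * a.1, a.2))).card < Fintype.card G := by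
    intro a ha
    have h2 := Finset.card_filter_add_card_filter_not (s := (univ : Finset G))
      (fun g : G => isN f (g * a.1, a.2))
    rw [Finset.card_univ] at h2
    unfold Good pN at ha
    omega
  have h2 := key a ha
  have h3 := key b hb
  have h4 := key c hc
  rw [Finset.card_univ] at h1
  omega

lemma close_trans {a b c : G × X} (ha : Good f a) (hb : Good f b) (hc : Good f c)
    (hab : 2 * D f a b < Fintype.card G) (hbc : 2 * D f b c < Fintype.card G) :
    2 * D f a c < Fintype.card G := by
  obtain ⟨g, ⟨x, hx⟩, ⟨y, hy⟩, ⟨z, hz⟩⟩ := exists_common f ha hb hc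
  have e1 := D_smul f g a b
  have e2 := D_smul f g b c
  have e3 := D_smul f g a c
  have hxy : x = y := by
    by_contra hne
    have h0 := D_one f hne
    have h1 := D_tri f (1, x) (g * a.1, a.2) (1, y)
    have h2 := D_tri f (g * a.1, a.2) (g * b.1, b.2) (1, y)
    have h3 := D_comm f (1, x) (g * a.1, a.2)
    omega
  have hyz : y = z := by
    by_contra hne
    have h0 := D_one f hne
    have h1 := D_tri f (1, y) (g * b.1, b.2) (1, z)
    have h2 := D_tri f (g * b.1, b.2) (g * c.1, c.2) (1, z)
    have h3 := D_comm f (1, y) (g * b.1, b.2)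
    omega
  subst hxy
  subst hyz
  have h1 := D_tri f (g * a.1, a.2) (1, x) (g * c.1, c.2)
  have h3 := D_comm f (1, x) (g * c.1, c.2)
  omega

/-- closeness on good elements. -/
def st : Setoid {a : G × X // Good f a} where
  r a b := 2 * D f a.1 b.1 < Fintype.card G
  iseqv :=
    { refl := fun a => by
        rw [D_self]
        exact Fintype.card_pos
      symm := fun {a b} h => by
        rw [D_comm]
        exact h
      trans := fun {a b c} h1 h2 => close_trans f a.2 b.2 c.2 h1 h2 }

/-- the set of clusters. -/
def Clu : Type := Quotient (st f)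

noncomputable instance : MulAction G (Clu f) where
  smul g := Quotient.map' (s₁ := st f) (s₂ := st f)
    (fun a => ⟨(g * a.1.1, a.1.2), (good_smul f g a.1).2 a.2⟩)
    (fun a b h => by
      change 2 * D f (g * a.1.1, a.1.2) (g * b.1.1, b.1.2) < Fintype.card G
      rw [D_smul]
      exact h)
  one_smul := by
    intro y
    induction y using Quotient.inductionOn with
    | h a =>
      refine congrArg (Quotient.mk (st f)) ?_
      apply Subtype.ext
      simp
  mul_smul := by
    intro g h y
    induction y using Quotient.inductionOn with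
    | h a =>
      refine congrArg (Quotient.mk (st f)) ?_
      apply Subtype.ext
      simp [mul_assoc]

/-- the cluster of a good element. -/
def mkC (a : {a : G × X // Good f a}) : Clu f := Quotient.mk (st f) a

lemma smul_mkC (g : G) (a : {a : G × X // Good f a}) :
    g • mkC f a = mkC f ⟨(g * a.1.1, a.1.2), (good_smul f g a.1).2 a.2⟩ := rfl

lemma mkC_eq {a b : {a : G × X // Good f a}} (h : 2 * D f a.1 b.1 < Fintype.card G) :
    mkC f a = mkC f b := Quotient.sound h

noncomputable instance : Fintype (Clu f) := by
  classical
  exact @Quotient.fintype _ _ (st f) (Classical.decRel _)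

noncomputable instance : DecidableEq (Clu f) := Classical.decEq _

/-- the point inclusion. -/
def pt (x : {x : X // Good f (1, x)}) : Clu f := mkC f ⟨(1, x.1), x.2⟩

lemma pt_injective : Function.Injective (pt f) := by
  intro x y h
  by_contra hne
  have h1 : 2 * D f (1, x.1) (1, y.1) < Fintype.card G := Quotient.exact h
  rw [D_one f (fun h => hne (Subtype.ext h))] at h1
  omega

/-- the set of violations of multiplicativity. -/
def viol : Finset (G × G × X) :=
  univ.filter (fun p => f (p.1 * p.2.1) p.2.2 ≠ f p.1 (f p.2.1 p.2.2))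

lemma sum_D : ∑ p : G × X, D f p (1, f p.1 p.2) = (viol f).card := by
  classical
  symm
  unfold viol
  rw [Finset.card_filter, Fintype.sum_prod_type_right]
  refine Finset.sum_congr rfl (fun p _ => ?_)
  unfold D
  rw [Finset.card_filter]
  simp

/-- the bad points. -/
noncomputable def bad : Finset X := by
  classical
  exact univ.filter (fun x => ¬ Good f (1, x))

lemma mem_bad (x : X) : x ∈ bad f ↔ ¬ Good f (1, x) := by
  classical
  simp [bad]

lemma bad_card : (bad f).card * (Fintype.card G) ^ 2 ≤ 32 * (viol f).card := by
  classical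
  have key : ∀ x ∈ bad f, (Fintype.card G) ^ 2 ≤ 32 * ∑ g : G, D f (g, x) (1, f g x) := by
    intro x hx
    rw [mem_bad] at hx
    have h2 := Finset.card_filter_add_card_filter_not (s := (univ : Finset G))
      (fun g : G => isN f (g * ((1 : G), x).1, ((1 : G), x).2))
    rw [Finset.card_univ] at h2
    unfold Good pN at hx
    set B := (univ.filter (fun g : G => ¬ isN f (g * ((1 : G), x).1, ((1 : G), x).2))) with hB
    have h3 : Fintype.card G ≤ 4 * B.card := by omega
    have h4 : Fintype.card G * B.card ≤ 8 * ∑ g : G, D f (g, x) (1, f g x) := by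
      calc Fintype.card G * B.card = ∑ g ∈ B, Fintype.card G := by
            rw [Finset.sum_const, smul_eq_mul, mul_comm]
        _ ≤ ∑ g ∈ B, 8 * D f (g, x) (1, f g x) := by
            refine Finset.sum_le_sum (fun g hg => ?_)
            simp only [hB, mem_filter, mem_univ, true_and, mul_one] at hg
            by_contra hlt
            push Not at hlt
            exact hg ⟨_, hlt⟩
        _ ≤ ∑ g : G, 8 * D f (g, x) (1, f g x) :=
            Finset.sum_le_sum_of_subset (Finset.subset_univ _)
        _ = _ := by rw [Finset.mul_sum]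
    calc (Fintype.card G) ^ 2 = Fintype.card G * Fintype.card G := sq _
      _ ≤ Fintype.card G * (4 * B.card) := Nat.mul_le_mul_left _ h3
      _ = 4 * (Fintype.card G * B.card) := by ring
      _ ≤ 4 * (8 * ∑ g : G, D f (g, x) (1, f g x)) := Nat.mul_le_mul_left _ h4
      _ = _ := by ring
  calc (bad f).card * (Fintype.card G) ^ 2 = ∑ x ∈ bad f, (Fintype.card G) ^ 2 := by
        rw [Finset.sum_const, smul_eq_mul]
    _ ≤ ∑ x ∈ bad f, 32 * ∑ g : G, D f (g, x) (1, f g x) := Finset.sum_le_sum key
    _ ≤ ∑ x : X, 32 * ∑ g : G, D f (g, x) (1, f g x) :=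
        Finset.sum_le_sum_of_subset (Finset.subset_univ _)
    _ = 32 * ∑ p : G × X, D f p (1, f p.1 p.2) := by
        rw [← Finset.mul_sum, ← Finset.univ_product_univ, Finset.sum_product_right]
    _ = _ := by rw [sum_D]

/-- the error set. -/
noncomputable def Err : Finset (G × X) := by
  classical
  exact univ.filter (fun p => ¬ (Good f (1, p.2) ∧ Good f (1, f p.1 p.2) ∧
    2 * D f p (1, f p.1 p.2) < Fintype.card G))

lemma err_card : Fintype.card G * (Err f).card ≤ 66 * (viol f).card := by
  classical
  set A1 : Finset (G × X) := univ ×ˢ bad f with hA1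
  set A2 : Finset (G × X) := univ.filter (fun p => f p.1 p.2 ∈ bad f) with hA2
  set A3 : Finset (G × X) := univ.filter
    (fun p => Fintype.card G ≤ 2 * D f p (1, f p.1 p.2)) with hA3
  have hsub : Err f ⊆ A1 ∪ (A2 ∪ A3) := by
    intro p hp
    simp only [Err, mem_filter, mem_univ, true_and] at hp
    simp only [hA1, hA2, hA3, mem_union, mem_product, mem_univ, true_and, mem_filter, mem_bad]
    by_contra hne
    push Not at hne
    exact hp hne
  have h1 : A1.card = Fintype.card G * (bad f).card := by
    rw [hA1, Finset.card_product, Finset.card_univ]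
  have h2 : A2.card = Fintype.card G * (bad f).card := by
    rw [← h1]
    refine Finset.card_bij (fun p _ => (p.1, f p.1 p.2)) ?_ ?_ ?_
    · intro p hp
      simp only [hA2, mem_filter, mem_univ, true_and] at hp
      simp [hA1, hp]
    · rintro ⟨a1, a2⟩ _ ⟨b1, b2⟩ _ h
      simp only [Prod.mk.injEq] at h
      obtain ⟨h3, h4⟩ := h
      subst h3
      simp only [EmbeddingLike.apply_eq_iff_eq] at h4
      rw [h4]
    · rintro ⟨b1, b2⟩ hb
      refine ⟨(b1, (f b1).symm b2), ?_, by simp⟩
      simp only [hA1, mem_product, mem_univ, true_and] at hb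
      simp [hA2, hb]
  have h3 : Fintype.card G * A3.card ≤ 2 * (viol f).card := by
    calc Fintype.card G * A3.card = ∑ p ∈ A3, Fintype.card G := by
          rw [Finset.sum_const, smul_eq_mul, mul_comm]
      _ ≤ ∑ p ∈ A3, 2 * D f p (1, f p.1 p.2) := by
          refine Finset.sum_le_sum (fun p hp => ?_)
          simpa [hA3] using hp
      _ ≤ ∑ p : G × X, 2 * D f p (1, f p.1 p.2) :=
          Finset.sum_le_sum_of_subset (Finset.subset_univ _)
      _ = 2 * (viol f).card := by rw [← Finset.mul_sum, sum_D]
  have h4 := bad_card f
  have h5 : (Err f).card ≤ A1.card + (A2.card + A3.card) :=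
    le_trans (Finset.card_le_card hsub) (le_trans (Finset.card_union_le _ _)
      (Nat.add_le_add_left (Finset.card_union_le _ _) _))
  calc Fintype.card G * (Err f).card
      ≤ Fintype.card G * (A1.card + (A2.card + A3.card)) := Nat.mul_le_mul_left _ h5
    _ = 2 * ((bad f).card * (Fintype.card G) ^ 2) + Fintype.card G * A3.card := by
        rw [h1, h2]; ring
    _ ≤ 2 * (32 * (viol f).card) + 2 * (viol f).card := by
        exact Nat.add_le_add (Nat.mul_le_mul_left _ h4) h3
    _ = 66 * (viol f).card := by ring

open Classical in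
/-- Averaged stability. -/
theorem stability_avg :
    ∃ (Z : Type) (_ : Fintype Z) (β : G →* Equiv.Perm Z) (j : X → Z), Function.Injective j ∧
      Fintype.card X ≤ Fintype.card Z ∧
      Fintype.card G * ∑ g : G, ((Fintype.card Z - Fintype.card X) +
        (univ.filter (fun x : X => β g (j x) ≠ j (f g x))).card) ≤ 330 * (viol f).card := by
  obtain ⟨Z, hZ, β, j, hj, hc, h1, h2⟩ := completion f (fun x => Good f (1, x)) (pt f)
    (pt_injective f) (Err f) (by
      intro p hp
      simp only [Err, mem_filter, mem_univ, true_and, not_not] at hp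
      obtain ⟨h1, h2, h3⟩ := hp
      refine ⟨h1, h2, ?_⟩
      unfold pt
      rw [smul_mkC]
      apply mkC_eq
      change 2 * D f (p.1 * 1, p.2) (1, f p.1 p.2) < Fintype.card G
      rw [mul_one]
      exact h3)
  refine ⟨Z, hZ, β, j, hj, hc, ?_⟩
  have h3 : ∑ g : G, ((Fintype.card Z - Fintype.card X) +
        (univ.filter (fun x : X => β g (j x) ≠ j (f g x))).card)
      = Fintype.card G * (Fintype.card Z - Fintype.card X) +
        (univ.filter (fun p : G × X => β p.1 (j p.2) ≠ j (f p.1 p.2))).card := by
    rw [Finset.sum_add_distrib, Finset.sum_const, Finset.card_univ, smul_eq_mul]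
    congr 1
    simp only [Finset.card_filter]
    rw [← Finset.univ_product_univ, Finset.sum_product]
  rw [h3]
  have h4 := err_card f
  calc _ ≤ Fintype.card G * (2 * (Err f).card + 3 * (Err f).card) :=
        Nat.mul_le_mul_left _ (Nat.add_le_add h1 h2)
    _ = 5 * (Fintype.card G * (Err f).card) := by ring
    _ ≤ 5 * (66 * (viol f).card) := Nat.mul_le_mul_left _ h4
    _ = _ := by ring

end stab

end Pool.Agent.Lib_MP_3a79a1_al
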