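import Pool.Agent.Lib_MP_3a79a1_al.Stab

/-!
Versions of the stability theorem on `Fin n ⊆ Fin N`: averaged and uniform.
-/

set_option linter.unusedSectionVars false

namespace Pool.Agent.Lib_MP_3a79a1_al

open Finset

section fin

variable {G : Type} [Group G] [Fintype G] [DecidableEq G] {n : ℕ}

/-- number of points `x < n` where the permutation `τ` of `Fin N` differs from `σ`. -/
def dis {n N : ℕ} (h : n ≤ N) (τ : Equiv.Perm (Fin N)) (σ : Equiv.Perm (Fin n)) : ℕ :=
  (univ.filter (fun x : Fin n => τ (Fin.castLE h x) ≠ Fin.castLE h (σ x))).card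

lemma exists_relabel {Z : Type} [Fintype Z] (j : Fin n → Z) (hj : Function.Injective j)
    (hc : n ≤ Fintype.card Z) :
    ∃ e : Z ≃ Fin (Fintype.card Z), ∀ i, e (j i) = Fin.castLE hc i := by
  classical
  let e0 : Z ≃ Fin (Fintype.card Z) := Fintype.equivFin Z
  let a : Fin n → Fin (Fintype.card Z) := fun i => e0 (j i)
  have ha : Function.Injective a := e0.injective.comp hj
  let b : Fin n → Fin (Fintype.card Z) := Fin.castLE hc
  have hb : Function.Injective b := Fin.castLE_injective hc
  let e1 : {x // x ∈ Set.range a} ≃ {x // x ∈ Set.range b} :=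
    (Equiv.ofInjective a ha).symm.trans (Equiv.ofInjective b hb)
  refine ⟨e0.trans e1.extendSubtype, fun i => ?_⟩
  have hi : a i ∈ Set.range a := ⟨i, rfl⟩
  have h1 : e1.extendSubtype (a i) = e1 ⟨a i, hi⟩ := Equiv.extendSubtype_apply_of_mem _ _ hi
  change e1.extendSubtype (a i) = b i
  rw [h1]
  have h2 : (Equiv.ofInjective a ha).symm ⟨a i, hi⟩ = i := by
    rw [Equiv.symm_apply_eq]
    rfl
  change ((Equiv.ofInjective b hb) ((Equiv.ofInjective a ha).symm ⟨a i, hi⟩) : Fin _) = b i
  rw [h2]
  rfl

theorem stability_avg_fin (f : G → Equiv.Perm (Fin n)) :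
    ∃ (N : ℕ) (h : n ≤ N) (β : G →* Equiv.Perm (Fin N)),
      Fintype.card G * ∑ g : G, ((N - n) + dis h (β g) (f g)) ≤ 330 * (viol f).card := by
  classical
  obtain ⟨Z, hZ, β, j, hj, hc, h1⟩ := stability_avg f
  rw [Fintype.card_fin] at hc
  obtain ⟨e, he⟩ := exists_relabel j hj hc
  refine ⟨Fintype.card Z, hc, (Equiv.permCongrHom e : Equiv.Perm Z →* _).comp β, ?_⟩
  refine le_trans (le_of_eq ?_) h1
  congr 1
  refine Finset.sum_congr rfl (fun g _ => ?_)
  rw [Fintype.card_fin]
  congr 1
  unfold dis
  congr 1
  ext x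
  simp only [mem_filter, mem_univ, true_and]
  rw [← he x, ← he (f g x)]
  have : ((Equiv.permCongrHom e : Equiv.Perm Z →* Equiv.Perm (Fin (Fintype.card Z))).comp β) g
      (e (j x)) = e (β g (j x)) := by
    simp [Equiv.permCongrHom]
  rw [this]
  simp

/-- uniform defect at most `K` gives uniform closeness at most `661 K`. -/
theorem stability_unif (f : G → Equiv.Perm (Fin n)) (K : ℕ)
    (hK : ∀ g g' : G, (univ.filter (fun x : Fin n => f (g * g') x ≠ f g (f g' x))).card ≤ K) :
    ∃ (N : ℕ) (h : n ≤ N) (β : G →* Equiv.Perm (Fin N)),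
      ∀ g : G, (N - n) + dis h (β g) (f g) ≤ 661 * K := by
  classical
  obtain ⟨N, h, β, h1⟩ := stability_avg_fin f
  refine ⟨N, h, β, fun g0 => ?_⟩
  have hG : 0 < Fintype.card G := Fintype.card_pos
  have hviol : (viol f).card ≤ Fintype.card G * (Fintype.card G * K) := by
    unfold viol
    rw [Finset.card_filter, Fintype.sum_prod_type]
    calc _ ≤ ∑ g : G, Fintype.card G * K := by
          refine Finset.sum_le_sum (fun g _ => ?_)
          rw [Fintype.sum_prod_type]
          calc _ ≤ ∑ g' : G, K := by
                refine Finset.sum_le_sum (fun g' _ => ?_)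
                refine le_trans (le_of_eq ?_) (hK g g')
                rw [Finset.card_filter]
            _ = _ := by rw [Finset.sum_const, Finset.card_univ, smul_eq_mul]
      _ = _ := by rw [Finset.sum_const, Finset.card_univ, smul_eq_mul]
  have h2 : ∑ g : G, ((N - n) + dis h (β g) (f g)) ≤ 330 * (Fintype.card G * K) := by
    have : Fintype.card G * ∑ g : G, ((N - n) + dis h (β g) (f g)) ≤
        Fintype.card G * (330 * (Fintype.card G * K)) := by
      calc _ ≤ _ := h1
        _ ≤ _ := Nat.mul_le_mul_left _ hviol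
        _ = _ := by ring
    exact Nat.le_of_mul_le_mul_left this hG
  have key : ∀ g : G, (N - n) + dis h (β g0) (f g0) ≤ ((N - n) + dis h (β g) (f g)) +
      ((N - n) + dis h (β (g0 * g)) (f (g0 * g))) + K := by
    intro g
    have h3 : dis h (β g0) (f g0) ≤ dis h (β g) (f g) + (dis h (β (g0 * g)) (f (g0 * g)) +
        (univ.filter (fun x : Fin n => f (g0 * g) x ≠ f g0 (f g x))).card) := by
      have h4 : dis h (β g0) (f g0) = (univ.filter (fun y : Fin n =>
          β g0 (Fin.castLE h (f g y)) ≠ Fin.castLE h (f g0 (f g y)))).card := by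
        unfold dis
        symm
        refine Finset.card_bij (fun y _ => f g y) ?_ ?_ ?_
        · intro y hy
          simpa using hy
        · intro a _ b _ hab
          exact (f g).injective hab
        · intro x hx
          exact ⟨(f g).symm x, by simpa using hx, by simp⟩
      rw [h4]
      refine le_trans (Finset.card_le_card (t :=
        (univ.filter (fun x : Fin n => β g (Fin.castLE h x) ≠ Fin.castLE h (f g x))) ∪
        ((univ.filter (fun x : Fin n =>
          β (g0 * g) (Fin.castLE h x) ≠ Fin.castLE h (f (g0 * g) x))) ∪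
        (univ.filter (fun x : Fin n => f (g0 * g) x ≠ f g0 (f g x))))) ?_) ?_
      · intro y hy
        simp only [mem_filter, mem_univ, true_and] at hy
        simp only [mem_filter, mem_univ, true_and, mem_union]
        by_contra hne
        push Not at hne
        obtain ⟨e1, e2, e3⟩ := hne
        apply hy
        rw [← e1, ← e3, ← e2, map_mul, Equiv.Perm.mul_apply]
      · refine le_trans (Finset.card_union_le _ _) (Nat.add_le_add_left
          (Finset.card_union_le _ _) _)
    have h5 := hK g0 g
    omega
  have h6 : Fintype.card G * ((N - n) + dis h (β g0) (f g0)) ≤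
      Fintype.card G * (661 * K) := by
    calc Fintype.card G * ((N - n) + dis h (β g0) (f g0))
        = ∑ g : G, ((N - n) + dis h (β g0) (f g0)) := by
          rw [Finset.sum_const, Finset.card_univ, smul_eq_mul]
      _ ≤ ∑ g : G, (((N - n) + dis h (β g) (f g)) +
      ((N - n) + dis h (β (g0 * g)) (f (g0 * g))) + K) := Finset.sum_le_sum (fun g _ => key g)
      _ = ∑ g : G, ((N - n) + dis h (β g) (f g)) +
        ∑ g : G, ((N - n) + dis h (β (g0 * g)) (f (g0 * g))) + Fintype.card G * K := by
          rw [Finset.sum_add_distrib, Finset.sum_add_distrib, Finset.sum_const, Finset.card_univ,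
            smul_eq_mul]
      _ = ∑ g : G, ((N - n) + dis h (β g) (f g)) +
        ∑ g : G, ((N - n) + dis h (β g) (f g)) + Fintype.card G * K := by
          congr 2
          exact Fintype.sum_equiv (Equiv.mulLeft g0) _ _ (fun g => rfl)
      _ ≤ 330 * (Fintype.card G * K) + 330 * (Fintype.card G * K) + Fintype.card G * K := by
          omega
      _ = _ := by ring
  exact Nat.le_of_mul_le_mul_left h6 hG

end fin

end Pool.Agent.Lib_MP_3a79a1_al
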